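import Pool.Agent.H11.EL.Targets

/-!
# MP_0b603e_al: module CQ
-/

set_option autoImplicit false

open scoped commutatorElement

namespace Pool.Agent.H85.EL

open Pool.Agent.H11.EL

theorem pf_cq : T_CQ := by
  intro G _ M Z R _ h hR
  have hsurj : Function.Surjective (QuotientGroup.mk' R) := QuotientGroup.mk'_surjective R
  have hker : (QuotientGroup.mk' R).ker = R := QuotientGroup.ker_mk' R
  have hZM : Z ≤ M := h.lt.le
  have hMc : (M.map (QuotientGroup.mk' R)).comap (QuotientGroup.mk' R) = M := by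
    rw [Subgroup.comap_map_eq, hker]
    exact sup_eq_left.2 (hR.trans hZM)
  have hZc : (Z.map (QuotientGroup.mk' R)).comap (QuotientGroup.mk' R) = Z := by
    rw [Subgroup.comap_map_eq, hker]
    exact sup_eq_left.2 hR
  refine ⟨h.nM.map _ hsurj, h.nZ.map _ hsurj, ?_, ?_, ?_, ?_, ?_⟩
  · refine lt_of_le_of_ne (Subgroup.map_mono hZM) ?_
    intro he
    apply h.lt.ne
    rw [← hZc, ← hMc, he]
  · have h1 : (⊤ : Subgroup (G ⧸ R)) = (⊤ : Subgroup G).map (QuotientGroup.mk' R) :=
      (Subgroup.map_top_of_surjective _ hsurj).symm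
    rw [h1, ← Subgroup.map_commutator, h.top]
  · rw [← Subgroup.map_commutator]
    exact Subgroup.map_mono h.cM
  · intro L hL hLM hLne
    have h1 : (L.comap (QuotientGroup.mk' R)).map (QuotientGroup.mk' R) = L :=
      Subgroup.map_comap_eq_self_of_surjective hsurj L
    have h2 : L.comap (QuotientGroup.mk' R) ≤ Z := by
      refine h.min _ (hL.comap _) ?_ ?_
      · rw [← hMc]
        exact Subgroup.comap_mono hLM
      · intro he
        apply hLne
        rw [← h1, he]
    rw [← h1]
    exact Subgroup.map_mono h2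
  · rintro _ ⟨z, hz, rfl⟩ _ ⟨m, hm, rfl⟩
    rw [← map_mul, ← map_mul, h.zM z hz m hm]

end Pool.Agent.H85.EL
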