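import Pool.Agent.H11.EL.Targets

/-!
# MP_0b603e_al: module NB
-/

set_option autoImplicit false

open scoped commutatorElement

namespace Pool.Agent.H85.EL

open Pool.Agent.H11.EL

section nb

variable {G : Type} [Group G]

theorem nb_central {c : ℕ} (h : (⊤ : Subgroup G).lowerCentralSeries (c + 2) = ⊥) {z : G}
    (hz : z ∈ (⊤ : Subgroup G).lowerCentralSeries (c + 1)) (g : G) : z * g = g * z := by
  have h1 : ⁅z, g⁆ ∈ (⊤ : Subgroup G).lowerCentralSeries (c + 2) := by
    rw [show c + 2 = (c + 1) + 1 from rfl, Subgroup.lowerCentralSeries_succ]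
    exact Subgroup.commutator_mem_commutator hz (Subgroup.mem_top g)
  rw [h, Subgroup.mem_bot] at h1
  exact commutatorElement_eq_one_iff_mul_comm.1 h1

theorem nb_mem {c : ℕ} {v : G} (hv : v ∈ (⊤ : Subgroup G).lowerCentralSeries c) (g : G) :
    ⁅g, v⁆ ∈ (⊤ : Subgroup G).lowerCentralSeries (c + 1) := by
  rw [Subgroup.lowerCentralSeries_succ]
  have h1 : ⁅v, g⁆ ∈ ⁅(⊤ : Subgroup G).lowerCentralSeries c, (⊤ : Subgroup G)⁆ :=
    Subgroup.commutator_mem_commutator hv (Subgroup.mem_top g)
  rw [← commutatorElement_inv]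
  exact Subgroup.inv_mem _ h1

theorem nb_cp_mem {c : ℕ} (y v : ℕ → G)
    (hv : ∀ i, v i ∈ (⊤ : Subgroup G).lowerCentralSeries c) (n : ℕ) :
    cp n y v ∈ (⊤ : Subgroup G).lowerCentralSeries (c + 1) := by
  induction n with
  | zero => exact Subgroup.one_mem _
  | succ n ih => rw [cp_succ]; exact Subgroup.mul_mem _ ih (nb_mem (hv n) _)

theorem nb_cp_mul {c : ℕ} (h : (⊤ : Subgroup G).lowerCentralSeries (c + 2) = ⊥) (y u v : ℕ → G)
    (hv : ∀ i, v i ∈ (⊤ : Subgroup G).lowerCentralSeries c) (n : ℕ) :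
    cp n y (fun i => u i * v i) = cp n y u * cp n y v := by
  induction n with
  | zero => simp
  | succ n ih =>
    rw [cp_succ, cp_succ, cp_succ, ih]
    have h1 : ⁅y n, u n * v n⁆ = ⁅y n, u n⁆ * (u n * ⁅y n, v n⁆ * (u n)⁻¹) := by
      simp only [commutatorElement_def]; group
    have h2 : u n * ⁅y n, v n⁆ * (u n)⁻¹ = ⁅y n, v n⁆ := by
      rw [← nb_central h (nb_mem (hv n) (y n)) (u n)]; group
    have h3 := nb_central h (nb_cp_mem y v hv n) ⁅y n, u n⁆
    rw [h1, h2, ← mul_assoc, mul_assoc (cp n y u), h3]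
    simp only [mul_assoc]

theorem nb_cp_one (y : ℕ → G) (n : ℕ) : cp n y (fun _ => 1) = 1 := by
  induction n with
  | zero => simp
  | succ n ih => rw [cp_succ, ih]; simp

theorem nb_single (y : ℕ → G) (w : G) (j : ℕ) : ∀ n, j < n →
    cp n y (fun i => if i = j then w else 1) = ⁅y j, w⁆ := by
  intro n
  induction n with
  | zero => intro h; omega
  | succ n ih =>
    intro h
    rw [cp_succ]
    by_cases hj : j < n
    · rw [ih hj]
      have : ¬ (n = j) := by omega
      simp [this]
    · have hjn : n = j := by omega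
      have h1 : cp n y (fun i => if i = j then w else 1) = cp n y (fun _ => 1) := by
        apply cp_congr (fun _ _ => rfl)
        intro i hi
        have : ¬ (i = j) := by omega
        simp [this]
      rw [h1, nb_cp_one, hjn]
      simp

theorem nb_span {c : ℕ} (h : (⊤ : Subgroup G).lowerCentralSeries (c + 2) = ⊥) (d : ℕ)
    (y : ℕ → G) (hy : Subgroup.closure {g | ∃ i < d, g = y i} = ⊤) :
    ∀ z ∈ (⊤ : Subgroup G).lowerCentralSeries (c + 1),
      ∃ u : ℕ → G, (∀ i, u i ∈ (⊤ : Subgroup G).lowerCentralSeries c) ∧ z = cp d y u := by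
  -- the subgroup of the products
  let S : Subgroup G :=
    { carrier := {z | ∃ u : ℕ → G, (∀ i, u i ∈ (⊤ : Subgroup G).lowerCentralSeries c) ∧
        z = cp d y u}
      one_mem' := ⟨fun _ => 1, fun _ => Subgroup.one_mem _, (nb_cp_one y d).symm⟩
      mul_mem' := by
        rintro _ _ ⟨u, hu, rfl⟩ ⟨v, hv, rfl⟩
        exact ⟨fun i => u i * v i, fun i => Subgroup.mul_mem _ (hu i) (hv i),
          (nb_cp_mul h y u v hv d).symm⟩
      inv_mem' := by
        rintro _ ⟨u, hu, rfl⟩
        refine ⟨fun i => (u i)⁻¹, fun i => Subgroup.inv_mem _ (hu i), ?_⟩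
        have h1 := nb_cp_mul h y (fun i => (u i)⁻¹) u hu d
        have h2 : (fun i => (u i)⁻¹ * u i) = fun _ => (1 : G) := by
          funext i; simp
        rw [h2, nb_cp_one] at h1
        exact (eq_inv_of_mul_eq_one_left h1.symm).symm }
  have hS : ∀ z, z ∈ S ↔ ∃ u : ℕ → G, (∀ i, u i ∈ (⊤ : Subgroup G).lowerCentralSeries c) ∧
        z = cp d y u := fun z => Iff.rfl
  have key : ∀ v ∈ (⊤ : Subgroup G).lowerCentralSeries c, ∀ g : G, ⁅v, g⁆ ∈ S := by
    intro v hv g
    have hcen : ∀ a : G, ∀ b : G, ⁅v, a⁆ * b = b * ⁅v, a⁆ := by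
      intro a b
      apply nb_central h
      rw [Subgroup.lowerCentralSeries_succ]
      exact Subgroup.commutator_mem_commutator hv (Subgroup.mem_top a)
    have hmul : ∀ a b : G, ⁅v, a * b⁆ = ⁅v, a⁆ * ⁅v, b⁆ := by
      intro a b
      have h1 : ⁅v, a * b⁆ = ⁅v, a⁆ * (a * ⁅v, b⁆ * a⁻¹) := by
        simp only [commutatorElement_def]; group
      rw [h1, ← hcen b a]; group
    let T : Subgroup G :=
      { carrier := {g | ⁅v, g⁆ ∈ S}
        one_mem' := by
          change ⁅v, (1 : G)⁆ ∈ S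
          rw [commutatorElement_one_right]; exact S.one_mem
        mul_mem' := by
          intro a b ha hb
          change ⁅v, a * b⁆ ∈ S
          rw [hmul]; exact S.mul_mem ha hb
        inv_mem' := by
          intro a ha
          change ⁅v, a⁻¹⁆ ∈ S
          have h1 := hmul a⁻¹ a
          rw [inv_mul_cancel, commutatorElement_one_right] at h1
          rw [eq_inv_of_mul_eq_one_left h1.symm]
          exact S.inv_mem ha }
    have hT : T = ⊤ := by
      rw [eq_top_iff, ← hy, Subgroup.closure_le]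
      rintro _ ⟨i, hi, rfl⟩
      change ⁅v, y i⁆ ∈ S
      rw [hS]
      refine ⟨fun j => if j = i then v⁻¹ else 1, ?_, ?_⟩
      · intro j
        dsimp only
        split_ifs
        · exact Subgroup.inv_mem _ hv
        · exact Subgroup.one_mem _
      · rw [nb_single y v⁻¹ i d hi]
        have h1 : ⁅y i, v⁻¹⁆ = v⁻¹ * ⁅v, y i⁆ * v := by
          simp only [commutatorElement_def]; group
        rw [h1, mul_assoc, hcen (y i) v]; group
    have : g ∈ T := by rw [hT]; exact Subgroup.mem_top g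
    exact this
  intro z hz
  have hle : (⊤ : Subgroup G).lowerCentralSeries (c + 1) ≤ S := by
    rw [Subgroup.lowerCentralSeries_succ, Subgroup.commutator_le]
    intro v hv g _
    exact key v hv g
  exact (hS z).1 (hle hz)

end nb

theorem nb_main : ∀ (n : ℕ) (G : Type) [Group G],
    (⊤ : Subgroup G).lowerCentralSeries (n + 1) = ⊥ → ∀ (d : ℕ) (y : ℕ → G),
  Subgroup.closure {g | ∃ i < d, g = y i} = ⊤ →
    ∀ g ∈ (⊤ : Subgroup G).lowerCentralSeries 1, ∃ x : ℕ → G, cp d y x = g := by
  intro n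
  induction n with
  | zero =>
    intro G _ h d y _ g hg
    rw [h, Subgroup.mem_bot] at hg
    exact ⟨fun _ => 1, by rw [nb_cp_one, hg]⟩
  | succ n ih =>
    intro G _ h d y hy g hg
    have hsurj : Function.Surjective
        (QuotientGroup.mk' ((⊤ : Subgroup G).lowerCentralSeries (n + 1))) :=
      QuotientGroup.mk'_surjective _
    have hmap : ∀ m : ℕ, ((⊤ : Subgroup G).lowerCentralSeries m).map
        (QuotientGroup.mk' ((⊤ : Subgroup G).lowerCentralSeries (n + 1))) =
        (⊤ : Subgroup (G ⧸ (⊤ : Subgroup G).lowerCentralSeries (n + 1))).lowerCentralSeries m := by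
      intro m
      rw [Subgroup.map_lowerCentralSeries, Subgroup.map_top_of_surjective _ hsurj]
    have h1 := ih (G ⧸ (⊤ : Subgroup G).lowerCentralSeries (n + 1)) (by
      rw [← hmap, Subgroup.map_eq_bot_iff, QuotientGroup.ker_mk']) d
      (fun i => QuotientGroup.mk' ((⊤ : Subgroup G).lowerCentralSeries (n + 1)) (y i)) (by
        have h2 := congrArg
          (Subgroup.map (QuotientGroup.mk' ((⊤ : Subgroup G).lowerCentralSeries (n + 1)))) hy
        rw [MonoidHom.map_closure, Subgroup.map_top_of_surjective _ hsurj] at h2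
        rw [← h2]
        congr 1
        ext q
        constructor
        · rintro ⟨i, hi, rfl⟩
          exact ⟨y i, ⟨i, hi, rfl⟩, rfl⟩
        · rintro ⟨_, ⟨i, hi, rfl⟩, rfl⟩
          exact ⟨i, hi, rfl⟩)
      (QuotientGroup.mk' ((⊤ : Subgroup G).lowerCentralSeries (n + 1)) g) (by
        rw [← hmap]; exact Subgroup.mem_map_of_mem _ hg)
    obtain ⟨x', hx'⟩ := h1
    choose x hx using fun i => hsurj (x' i)
    have h3 : QuotientGroup.mk' ((⊤ : Subgroup G).lowerCentralSeries (n + 1)) (cp d y x) =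
        QuotientGroup.mk' ((⊤ : Subgroup G).lowerCentralSeries (n + 1)) g := by
      rw [cp_map, ← hx']
      exact cp_congr (fun _ _ => rfl) (fun i _ => hx i)
    have h4 : (cp d y x)⁻¹ * g ∈ (⊤ : Subgroup G).lowerCentralSeries (n + 1) :=
      QuotientGroup.eq.1 h3
    obtain ⟨u, hu, hu'⟩ := nb_span h d y hy _ h4
    refine ⟨fun i => x i * u i, ?_⟩
    rw [nb_cp_mul h y x u hu, ← hu']
    group

theorem pf_nb : T_NB := by
  intro G _ hG d y hy g hg
  obtain ⟨n, hn⟩ := Subgroup.nilpotent_iff_lowerCentralSeries.1 hG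
  have hn1 : (⊤ : Subgroup G).lowerCentralSeries (n + 1) = ⊥ := by
    rw [eq_bot_iff, ← hn]
    exact (⊤ : Subgroup G).lowerCentralSeries_antitone (Nat.le_succ n)
  exact nb_main n G hn1 d y hy g (by rw [Subgroup.top_lowerCentralSeries_one]; exact hg)

end Pool.Agent.H85.EL
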